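import Pool.Agent.H69.GN.Stm

/-! # Crew GN, part EXI -/

set_option autoImplicit false

namespace Pool.Agent.H55.GN

open Finset Pool.Agent.H69.GN

/-- a large prime with prescribed divisors of `t - 1` in the set `S` -/
theorem fresh_prime (S : Finset ℕ) (hS : ∀ p ∈ S, p.Prime ∧ 3 ≤ p) (T : ℕ → Prop) :
    ∃ t : ℕ, t.Prime ∧ 3 ≤ t ∧ (∀ p ∈ S, p < t) ∧ ∀ p ∈ S, p ∣ t - 1 ↔ T p := by
  classical
  set a : ℕ → ℕ := fun p => if T p then 1 else 2 with ha
  obtain ⟨k, hk⟩ := Nat.chineseRemainderOfFinset a (fun p : ℕ => p) S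
    (fun p hp => (hS p hp).1.ne_zero)
    (fun p hp q hq hne => (Nat.coprime_primes (hS p hp).1 (hS q hq).1).2 hne)
  have hna : ∀ p ∈ S, ¬ p ∣ k := by
    intro p hp hd
    have h1 := hk p hp
    have h2 : p ∣ a p := (h1.dvd_iff dvd_rfl).1 hd
    have h3 : a p = 1 ∨ a p = 2 := by
      simp only [ha]; split_ifs <;> simp
    have h4 := (hS p hp).2
    rcases h3 with h3 | h3 <;> rw [h3] at h2
    · have := Nat.le_of_dvd (by norm_num) h2
      omega
    · have := Nat.le_of_dvd (by norm_num) h2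
      omega
  have hcop : Nat.Coprime k (∏ p ∈ S, p) := by
    apply Nat.Coprime.prod_right
    intro p hp
    exact ((Nat.Prime.coprime_iff_not_dvd (hS p hp).1).2 (hna p hp)).symm
  have hN : (∏ p ∈ S, p) ≠ 0 := Finset.prod_ne_zero_iff.2 fun p hp => (hS p hp).1.ne_zero
  obtain ⟨t, htgt, htp, htm⟩ := Nat.forall_exists_prime_gt_and_modEq (S.sup id + 3) hN hcop
  refine ⟨t, htp, by omega, fun p hp => ?_, fun p hp => ?_⟩
  · have : p ≤ S.sup id := Finset.le_sup (f := id) hp
    omega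
  · have h1 : t ≡ a p [MOD p] := (htm.of_dvd (Finset.dvd_prod_of_mem _ hp)).trans (hk p hp)
    have h2 : p ∣ t - 1 ↔ 1 ≡ t [MOD p] := (Nat.modEq_iff_dvd' htp.one_lt.le).symm
    rw [h2]
    by_cases hT : T p
    · have : a p = 1 := by simp only [ha]; rw [if_pos hT]
      rw [this] at h1
      exact ⟨fun _ => hT, fun _ => h1.symm⟩
    · have : a p = 2 := by simp only [ha]; rw [if_neg hT]
      rw [this] at h1
      refine ⟨fun h => ?_, fun h => absurd h hT⟩
      have h3 : 1 ≡ 2 [MOD p] := h.trans h1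
      have h4 : p ∣ 2 - 1 := (Nat.modEq_iff_dvd' (by norm_num)).1 h3
      have h5 := Nat.le_of_dvd (by norm_num) h4
      have h6 := (hS p hp).2
      omega

/-- the set of new leaves -/
theorem exists_leaves (V : Finset ℕ) (hV : ∀ p ∈ V, p.Prime ∧ 3 ≤ p) (a : ℕ) :
    ∃ P : Finset ℕ, P.card = a ∧ (∀ p ∈ P, p.Prime ∧ 3 ≤ p) ∧ Disjoint V P ∧
      (∀ p ∈ P, ∀ q ∈ V ∪ P, ¬ p ∣ q - 1) ∧ (∀ p ∈ V, ∀ q ∈ P, ¬ p ∣ q - 1) := by
  induction a with
  | zero => exact ⟨∅, rfl, by simp, by simp, by simp, by simp⟩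
  | succ a ih =>
    obtain ⟨P, hcard, hP, hdis, h1, h2⟩ := ih
    have hU : ∀ p ∈ V ∪ P, p.Prime ∧ 3 ≤ p := by
      intro p hp
      rcases Finset.mem_union.1 hp with h | h
      · exact hV p h
      · exact hP p h
    obtain ⟨t, htp, ht3, htgt, htd⟩ := fresh_prime (V ∪ P) hU (fun _ => False)
    have htn : t ∉ V ∪ P := fun h => lt_irrefl _ (htgt t h)
    have htnV : t ∉ V := fun h => htn (Finset.mem_union_left _ h)
    have htnP : t ∉ P := fun h => htn (Finset.mem_union_right _ h)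
    have hbig : ∀ q ∈ V ∪ P, ¬ t ∣ q - 1 := by
      intro q hq hd
      have h3 := (hU q hq).2
      have h4 := Nat.le_of_dvd (by omega) hd
      have h5 := htgt q hq
      omega
    have hself : ¬ t ∣ t - 1 := by
      intro hd
      have h4 := Nat.le_of_dvd (by omega) hd
      omega
    refine ⟨insert t P, ?_, ?_, ?_, ?_, ?_⟩
    · rw [Finset.card_insert_of_notMem htnP, hcard]
    · intro p hp
      rcases Finset.mem_insert.1 hp with rfl | h
      · exact ⟨htp, ht3⟩
      · exact hP p h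
    · rw [Finset.disjoint_insert_right]
      exact ⟨htnV, hdis⟩
    · intro p hp q hq
      rw [Finset.union_insert, Finset.mem_insert] at hq
      rcases Finset.mem_insert.1 hp with rfl | hp'
      · rcases hq with rfl | hq
        · exact hself
        · exact hbig q hq
      · rcases hq with rfl | hq
        · exact fun hd => (htd p (Finset.mem_union_right _ hp')).1 hd
        · exact h1 p hp' q hq
    · intro p hp q hq
      rcases Finset.mem_insert.1 hq with rfl | hq
      · exact fun hd => (htd p (Finset.mem_union_left _ hp)).1 hd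
      · exact h2 p hp q hq

theorem t_EXI : S_EXI := by
  intro V r a hV _
  obtain ⟨P, hcard, hP, hdis, h1, h2⟩ := exists_leaves V hV a
  have hU : ∀ p ∈ V ∪ P, p.Prime ∧ 3 ≤ p := by
    intro p hp
    rcases Finset.mem_union.1 hp with h | h
    · exact hV p h
    · exact hP p h
  obtain ⟨t, htp, ht3, htgt, htd⟩ := fresh_prime (V ∪ P) hU (fun p => p = r ∨ p ∈ P)
  refine ⟨P, t, hcard, hP, hdis, h1, h2, htp, ht3, fun h => lt_irrefl _ (htgt t h), htd, ?_⟩
  intro q hq hd
  have h3 := (hU q hq).2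
  have h4 := Nat.le_of_dvd (by omega) hd
  have h5 := htgt q hq
  omega

end Pool.Agent.H55.GN
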