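import Pool.Agent.H69.GN.Stm

/-! # Crew GN, part GCP -/

set_option autoImplicit false

namespace Pool.Agent.H55.GN

open Finset Pool.Agent.H69.GN

theorem gcd_prod (k : ℕ) (D : Finset ℕ) (hD : ∀ p ∈ D, p.Prime) :
    Nat.gcd (∏ p ∈ D, p) k = ∏ p ∈ D, if p ∣ k then p else 1 := by
  induction D using Finset.induction_on with
  | empty => simp
  | insert a s ha ih =>
    rw [Finset.prod_insert ha, Finset.prod_insert ha]
    have hs : ∀ p ∈ s, p.Prime := fun p hp => hD p (Finset.mem_insert_of_mem hp)
    have hap : a.Prime := hD a (Finset.mem_insert_self a s)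
    have hcop : Nat.Coprime a (∏ p ∈ s, p) := by
      apply Nat.Coprime.prod_right
      intro p hp
      exact (Nat.coprime_primes hap (hs p hp)).2 (fun h => ha (h ▸ hp))
    rw [Nat.gcd_comm, Nat.Coprime.gcd_mul k hcop, Nat.gcd_comm k a, Nat.gcd_comm k, ih hs]
    congr 1
    split_ifs with h
    · exact Nat.gcd_eq_left h
    · exact (Nat.Prime.coprime_iff_not_dvd hap).2 h

theorem t_GCP : S_GCP := by
  intro V D hV hDV
  have hD : ∀ p ∈ D, p.Prime := fun p hp => (hV.1 p (hDV hp)).1
  rw [Finset.prod_congr rfl (fun q _ => gcd_prod (q - 1) D hD), Finset.prod_comm,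
    Finset.prod_filter]
  refine Finset.prod_congr rfl fun p hp => ?_
  split_ifs with h
  · obtain ⟨q0, hq0, hpq⟩ := h
    rw [Finset.prod_eq_single q0]
    · rw [if_pos hpq]
    · intro q hq hne
      rw [if_neg]
      intro hd
      apply hne
      exact hV.2 p (hDV hp) q (Finset.mem_sdiff.1 hq).1 q0 (Finset.mem_sdiff.1 hq0).1 hd hpq
    · intro hn
      exact absurd hq0 hn
  · push Not at h
    refine Finset.prod_eq_one fun q hq => ?_
    rw [if_neg (h q hq)]

end Pool.Agent.H55.GN
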